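import Pool.Agent.Helper78.Tok.Alg

/-!
# Itinerary machines: the space-efficient simulation

Time is divided into blocks of `G * b` steps, a block into `G` intervals of `b` steps. The event at
the time `t` is a number `ev t < 2 ^ σ`; the module `x` has at the start of the block `k` the content
`ct k x < 2 ^ a`. The events of the interval `i` of a block are a function `F i π` of the events of the
block before the interval and of the contents of `E` modules at the start of the block, where
`π` (the itinerary) is the list of these modules: for exactly one itinerary `F i π` gives the events,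
for all others it gives `0`. The content of a module at the end of a block is a function `H` of its
content at the start of the block and of the events of the block.

The registers are elements of `ZMod p`: the register `m < G * (σ * b)` belongs to the bit `m % σ` of
the event number `m / σ + 1` of a block. There are `E + 1` more groups of `σ + a` registers, each for
the event at the start of a block together with the content of one module at this time.
-/

namespace Pool.Agent.Helper78.Ep

open Pool.Agent.Helper65.LinSpace Pool.Agent.Helper28.Ram Finset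
open Pool.Agent.Helper28.Ram.Mach (sgz)

/-- An itinerary machine on numbers. -/
structure Mach where
  σ : ℕ
  a : ℕ
  b : ℕ
  G : ℕ
  E : ℕ
  lam : ℕ
  F : ℕ → ℕ → ℕ → ℕ
  H : ℕ → ℕ → ℕ
  q0 : ℕ
  M0 : ℕ → ℕ
  ev : ℕ → ℕ
  ct : ℕ → ℕ → ℕ

namespace Mach

variable (m : Mach)

/-- The number of registers of an interval. -/
def wn : ℕ := m.σ * m.b

/-- The number of registers of a content. -/
def wc : ℕ := m.σ + m.a

/-- The event at the start of the block `k` and the content of the module `x` at this time. -/
def tn (k x : ℕ) : ℕ := m.ev (k * (m.G * m.b)) + 2 ^ m.σ * m.ct k x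

/-- The events `1, …, n` of the block `k`. -/
def te (k n : ℕ) : ℕ := tab (2 ^ m.σ) n fun t => m.ev (k * (m.G * m.b) + t + 1)

/-- The arguments of `F`: the events before the interval `i`, and the event at the start of the block
together with the content of a module at this time, for all modules of the itinerary `π`. -/
def zF (k i π : ℕ) : ℕ :=
  m.te k (i * m.b) + 2 ^ (i * m.wn) * tab (2 ^ m.wc) m.E fun j => m.tn k (dig (2 ^ m.lam) π j)

/-- The argument of `H`. -/
def zH (k x : ℕ) : ℕ := m.te k (m.G * m.b) + 2 ^ (m.G * m.wn) * m.tn k x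

end Mach

/-- The events have `σ` bits, the contents have `a` bits, and `F` and `H` compute them. -/
structure Mach.Ok (m : Mach) : Prop where
  hσ : 0 < m.σ
  hb : 0 < m.b
  hE : 0 < m.E
  hl : 0 < m.lam
  hev : ∀ t, m.ev t < 2 ^ m.σ
  hct : ∀ k x, m.ct k x < 2 ^ m.a
  h0 : m.ev 0 = m.q0
  hM : ∀ x, m.ct 0 x = m.M0 x
  hF : ∀ k i, i < m.G → ∃ π₀ < 2 ^ (m.lam * m.E), ∀ π < 2 ^ (m.lam * m.E),
    m.F i π (m.zF k i π) = if π = π₀ then
      tab (2 ^ m.σ) m.b (fun r => m.ev (k * (m.G * m.b) + i * m.b + r + 1)) else 0
  hH : ∀ k x, m.H x (m.zH k x) = m.tn (k + 1) x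

namespace Mach

variable (m : Mach)

/-! ### Polynomials -/

section

variable (p : ℕ)

/-- The variables of the node `i`: the registers before the interval `i`, then the cells `D`. -/
def vars (i : ℕ) (X D : ℕ → ZMod p) (j : ℕ) : ZMod p :=
  if j < i * m.wn then X j else D (j - i * m.wn)

/-- The bits of `tn`. -/
def T (k x o : ℕ) : ZMod p := bitZ p (m.tn k x) o

/-- The contents of the modules of the itinerary `π`. -/
def TE (k π u : ℕ) : ZMod p := m.T p k (dig (2 ^ m.lam) π (u / m.wc)) (u % m.wc)

/-- The polynomials of the node `i` of the block `k` for the query `x`. The nodes `i < G` are the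
intervals; the nodes `G + j`, `j ≤ E`, are the contents at the end of the block. -/
def P (k i x : ℕ) (X : ℕ → ZMod p) (o : ℕ) : ZMod p :=
  if i < m.G then
    ∑ π ∈ range (2 ^ (m.lam * m.E)), fhat p (i * m.wn + m.E * m.wc) (m.F i π) o
      (m.vars p i X (m.TE p k π))
  else fhat p (m.G * m.wn + m.wc) (m.H x) o (m.vars p m.G X (m.T p k x))

/-- The value of the node `i` of the block `k` for the query `x`, as a number. -/
def vn (k i x : ℕ) : ℕ :=
  if i < m.G then tab (2 ^ m.σ) m.b fun r => m.ev (k * (m.G * m.b) + i * m.b + r + 1)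
  else m.tn (k + 1) x

/-- The bits of the value of the node `i`. -/
def V (k i x o : ℕ) : ZMod p := bitZ p (m.vn k i x) o

/-! ### The procedures -/

/-- The first register of the output of the node `i`. -/
def lo (i : ℕ) : ℕ := if i < m.G then i * m.wn else m.G * m.wn + (i - m.G) * m.wc

/-- The number of registers of the output of the node `i`. -/
def ln (i : ℕ) : ℕ := if i < m.G then m.wn else m.wc

/-- The group of registers which is used for the evaluation of the node `i = G + j`. -/
def src (i : ℕ) : ℕ := (i - m.G + 1) % (m.E + 1)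

/-- The states of the simulation: registers; mode, node and sign of each level; query of each
block. -/
structure St where
  R : ℕ → ZMod p
  md : ℕ → ℕ
  nd : ℕ → ℕ
  sg : ℕ → ℕ
  qa : ℕ → ℕ

variable {p} in
/-- Set mode, node and sign of the level `l`. -/
def St.call (s : St p) (l c i g : ℕ) : St p :=
  { s with
    md := Function.update s.md l c
    nd := Function.update s.nd l i
    sg := Function.update s.sg l g }

variable {p} in
/-- Add `c` to the `n` registers from `l` on. -/
def addR (l n : ℕ) (c : ℕ → ZMod p) (R : ℕ → ZMod p) : ℕ → ZMod p :=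
  fun j => if l ≤ j ∧ j < l + n then R j + c (j - l) else R j

variable {p} in
/-- Multiply the `n` registers from `l` on by `c`. -/
def scaR (l n : ℕ) (c : ZMod p) (R : ℕ → ZMod p) : ℕ → ZMod p :=
  fun j => if l ≤ j ∧ j < l + n then c * R j else R j

variable {p}

/-- The level `0`: the query at the start of the computation. -/
def op0 (s : St p) : St p :=
  if s.md 0 = 1 ∧ m.G ≤ s.nd 0 ∧ s.nd 0 ≤ m.G + m.E then
    { s with
      R := addR (m.lo (s.nd 0)) m.wc (fun o => sgz p (s.sg 0) *
        bitZ p (m.q0 + 2 ^ m.σ * m.M0 (s.qa 0)) o) s.R }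
  else s

/-- The evaluation of the polynomials of the node `i < G`: the operation number `e` for the
itinerary `π` and the factor `c` in the level `l + 1`, which belongs to the block `k`. -/
def opY (l k π c e : ℕ) (s : St p) : St p :=
  if e = 0 then
    ({ s with R := scaR (m.G * m.wn) (m.E * m.wc) (c : ZMod p) s.R } : St p).call l 0 0 0
  else if e ≤ m.E then
    ({ s with qa := Function.update s.qa k (dig (2 ^ m.lam) π (e - 1)) } : St p).call l 1
      (m.G + (e - 1)) 0
  else if e = m.E + 1 then
    ({ s with
      R := addR (m.lo (s.nd (l + 1))) (m.ln (s.nd (l + 1))) (fun o => sgz p (s.sg (l + 1)) *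
        fhat p (s.nd (l + 1) * m.wn + m.E * m.wc) (m.F (s.nd (l + 1)) π) o
          (m.vars p (s.nd (l + 1)) s.R fun u => s.R (m.G * m.wn + u))) s.R } : St p).call l 0 0 0
  else if e ≤ 2 * m.E + 1 then
    ({ s with qa := Function.update s.qa k (dig (2 ^ m.lam) π (e - (m.E + 2))) } : St p).call l 1
      (m.G + (e - (m.E + 2))) 1
  else
    ({ s with R := scaR (m.G * m.wn) (m.E * m.wc) (c : ZMod p)⁻¹ s.R } : St p).call l 0 0 0

/-- The evaluation of the polynomials of the node `i = G + j`: the operation number `e` in the level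
`l + 1`, which belongs to the block `k`. -/
def opZ (l k e : ℕ) (s : St p) : St p :=
  if e % 3 = 0 then
    ({ s with
        R := scaR (m.G * m.wn + m.src (s.nd (l + 1)) * m.wc) m.wc ((e / 3 + 1 : ℕ) : ZMod p) s.R
        qa := Function.update s.qa k (s.qa (k + 1)) } : St p).call l 1
      (m.G + m.src (s.nd (l + 1))) 0
  else if e % 3 = 1 then
    ({ s with
        R := addR (m.lo (s.nd (l + 1))) (m.ln (s.nd (l + 1))) (fun o => sgz p (s.sg (l + 1)) *
          fhat p (m.G * m.wn + m.wc) (m.H (s.qa (k + 1))) o
            (m.vars p m.G s.R fun u => s.R (m.G * m.wn + m.src (s.nd (l + 1)) * m.wc + u)))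
          s.R } : St p).call l 1 (m.G + m.src (s.nd (l + 1))) 1
  else
    ({ s with
        R := scaR (m.G * m.wn + m.src (s.nd (l + 1)) * m.wc) m.wc ((e / 3 + 1 : ℕ) : ZMod p)⁻¹
          s.R } : St p).call l 0 0 0

/-- The evaluation of the polynomials: the operation `j` of the level `l + 1`, which belongs to the
block `k`. -/
def opE (l k j : ℕ) (s : St p) : St p :=
  if s.md (l + 1) = 2 ∧ s.nd (l + 1) < m.G then
    m.opY l k (j / ((p - 1) * (2 * m.E + 3))) (j % ((p - 1) * (2 * m.E + 3)) / (2 * m.E + 3) + 1)
      (j % (2 * m.E + 3)) s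
  else if s.md (l + 1) = 2 ∧ s.nd (l + 1) ≤ m.G + m.E ∧ j < 3 * (p - 1) then m.opZ l k j s
  else s.call l 0 0 0

/-- The evaluation of the nodes: the operation `j` of the level `l + 1`. -/
def opN (l h j : ℕ) (s : St p) : St p :=
  if s.md (l + 1) = 1 ∧ min (s.nd (l + 1)) m.G < h ∧ s.nd (l + 1) ≤ m.G + m.E then
    if j % (2 * m.G + 3) = 0 then
      ({ s with
          R := scaR 0 (min (s.nd (l + 1)) m.G * m.wn)
            ((j / (2 * m.G + 3) + 1 : ℕ) : ZMod p) s.R } : St p).call l 0 0 0
    else if j % (2 * m.G + 3) ≤ m.G then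
      if j % (2 * m.G + 3) - 1 < s.nd (l + 1) then s.call l 1 (j % (2 * m.G + 3) - 1) 0
      else s.call l 0 0 0
    else if j % (2 * m.G + 3) = m.G + 1 then s.call l 2 (s.nd (l + 1)) (s.sg (l + 1))
    else if j % (2 * m.G + 3) ≤ 2 * m.G + 1 then
      if j % (2 * m.G + 3) - (m.G + 2) < s.nd (l + 1) then
        s.call l 1 (j % (2 * m.G + 3) - (m.G + 2)) 1
      else s.call l 0 0 0
    else
      ({ s with
          R := scaR 0 (min (s.nd (l + 1)) m.G * m.wn)
            ((j / (2 * m.G + 3) + 1 : ℕ) : ZMod p)⁻¹ s.R } : St p).call l 0 0 0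
  else if s.md (l + 1) = 2 ∧ s.nd (l + 1) ≤ m.G + m.E ∧ j = 0 then
    s.call l 2 (s.nd (l + 1)) (s.sg (l + 1))
  else s.call l 0 0 0

/-- The operation `j` of the level `l + 1`. -/
def op (l j : ℕ) (s : St p) : St p :=
  if l % (m.G + 2) = 0 then m.opE l (l / (m.G + 2)) j s else m.opN l (l % (m.G + 2)) j s

variable (p) in
/-- The number of operations of the level `l + 1`. -/
def cnt (l : ℕ) : ℕ :=
  ifz (l % (m.G + 2)) (2 ^ (m.lam * m.E) * ((p - 1) * (2 * m.E + 3))) ((p - 1) * (2 * m.G + 3))

/-- The procedure of the level `l`. -/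
def proc : ℕ → St p → St p
  | 0, s => m.op0 s
  | l + 1, s => iter (fun j s => proc l (m.op l j s)) (m.cnt p l) s

variable (p) in
/-- The state with an active call of the node `G` in the level `l`, and zeros elsewhere. -/
def st0 (l : ℕ) : St p :=
  ({ R := fun _ => 0, md := fun _ => 0, nd := fun _ => 0, sg := fun _ => 0, qa := fun _ => 0 } :
    St p).call l 1 m.G 0

/-- What the procedure of the level `l` does. -/
def ideal : ℕ → St p → St p
  | 0, s =>
    if s.md 0 = 1 ∧ m.G ≤ s.nd 0 ∧ s.nd 0 ≤ m.G + m.E then
      { s with R := addR (m.lo (s.nd 0)) m.wc (fun o => sgz p (s.sg 0) * m.T p 0 (s.qa 0) o) s.R }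
    else s
  | l + 1, s =>
    if s.md (l + 1) = 2 ∧ s.nd (l + 1) ≤ m.G + m.E then
      { s with
        R := addR (m.lo (s.nd (l + 1))) (m.ln (s.nd (l + 1)))
          (fun o => -(sgz p (s.sg (l + 1)) *
            m.P p (l / (m.G + 2)) (s.nd (l + 1)) (s.qa (l / (m.G + 2) + 1)) s.R o)) s.R }
    else if s.md (l + 1) = 1 ∧ min (s.nd (l + 1)) m.G < l % (m.G + 2) ∧
        s.nd (l + 1) ≤ m.G + m.E then
      { s with
        R := addR (m.lo (s.nd (l + 1))) (m.ln (s.nd (l + 1)))
          (fun o => sgz p (s.sg (l + 1)) *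
            m.V p (l / (m.G + 2)) (s.nd (l + 1)) (s.qa (l / (m.G + 2) + 1)) o) s.R }
    else s

/-- The states agree in all which the procedure of the level `l` does not use as its work space. -/
def Agree (l : ℕ) (s t : St p) : Prop :=
  s.R = t.R ∧ (∀ k, l ≤ k → s.md k = t.md k ∧ s.nd k = t.nd k ∧ s.sg k = t.sg k) ∧
    ∀ k, l ≤ k * (m.G + 2) → s.qa k = t.qa k

end

end Mach

end Pool.Agent.Helper78.Ep
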