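import Pool.Agent.Helper78.Ep.Sim
import Pool.Agent.Helper26.Ep.LINE
import Pool.Agent.Helper32.Ep.TRUTH
import Pool.Agent.Helper32.Ep.LSOP
import Pool.Agent.Helper75.Ep.ELEV
import Pool.Agent.Helper94.Ep.NLEV
import Pool.Agent.Helper24.Ep.PROC
import Pool.Agent.Helper77.Ep.REL
import Pool.Agent.Helper70.Ep.PAR
import Pool.Agent.Helper33.Tok.REL
import Pool.Agent.Helper19.Ram.FLAT

/-!
# All parts of the simulation of itinerary machines
-/

namespace Pool.Agent.Helper78.Ep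

theorem parts : Parts where
  FLAT := Pool.Agent.Helper19.Ram.FLAT
  REL := Pool.Agent.Helper77.Ep.REL Pool.Agent.Helper33.Tok.FCAST
  FINAL := Pool.Agent.Helper24.Ep.FINAL (Pool.Agent.Helper24.Ep.PROC Pool.Agent.Helper75.Ep.ELEV
    (Pool.Agent.Helper94.Ep.NLEV Pool.Agent.Helper26.Ep.LINE Pool.Agent.Helper32.Ep.TRUTH))
  LSOP := Pool.Agent.Helper32.Ep.LSOP
  PARA := Pool.Agent.Helper70.Ep.PARA
  PARB := Pool.Agent.Helper70.Ep.PARB

end Pool.Agent.Helper78.Ep
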