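import Pool.Agent.Helper78.Ep.Num
import Pool.Agent.Helper78.Tok.Goals

/-!
# Itinerary machines: the statements of the parts of the simulation

Every statement comes with its proof in words. The statements are close to those of
`Pool.Agent.Helper78.Tok.Goals` (token machines), whose proofs can be adapted: LINE
(`Helper85/Tok/INNER`), ELEV (`Helper70/Tok/ELEV`), NLEV (`Helper72/Tok/NLEV`), AGREE, PROC, FINAL
(`Helper4/Tok/PROC`), REL (`Helper33/Tok/REL`), LSOP (`Helper32/Tok/LSOP`, `Helper32/Tok/LSFN`),
PARB (`Helper59/Tok/PARB`).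
-/

namespace Pool.Agent.Helper78.Ep

open Pool.Agent.Helper65.LinSpace Pool.Agent.Helper28.Ram Finset
open Pool.Agent.Helper28.Ram.Mach (sgz)
open Pool.Agent.Helper78.Tok (fhG rgn)

/-- LINE. `fhat_sum` (`LinSpace/CM.lean`) with `τ j = if j < i' * wn then X j else 0` and
`x = vars p i' V D` (`i' = min i G`): `(w + 1) * τ j + x j = vars p i' (fun j => (w + 1) * X j + V j) D j`.
For `i < G` exchange the sums. -/
def LINE_stmt : Prop := ∀ (m : Mach) (p : ℕ) [Fact p.Prime],
    m.G * m.wn + (m.E + 1) * m.wc < p - 1 →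
    ∀ (k i u : ℕ) (X V : ℕ → ZMod p) (o : ℕ), i ≤ m.G + m.E →
      ∑ w ∈ range (p - 1), m.P p k i u (fun j => ((w + 1 : ℕ) : ZMod p) * X j + V j) o =
        -m.P p k i u V o

/-- TRUTH. At the true values the polynomials give the true values. (1) For `i < G` the bits
`j < i * wn + E * wc` of `zF k i π` are `vars p i (fun j => V p k (j / wn) u (j % wn)) (TE p k π) j`: for
`j < i * wn = σ * (i * b)` both are the bit `j % σ` of `ev (k G b + j / σ + 1)`
(`j / wn < i ≤ G`, `j / wn * b + j % wn / σ = j / σ`); for `j = i * wn + u`, `u < E * wc`, both are the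
bit `u % wc` of `tn k (dig (2 ^ lam) π (u / wc))` (`tn k x < 2 ^ wc`). And
`zF k i π < 2 ^ (i * wn + E * wc)`. So `fhat_congr` and `fhat_bits` give
`fhat … = bitZ p (F i π (zF k i π)) o`, and with `hF` only the term of `π₀` remains, which is `V k i u o`
(`bitZ p 0 o = 0`). (2) For `i = G + j` in the same way with `zH k u` and `hH`. -/
def TRUTH_stmt : Prop := ∀ (m : Mach) (p : ℕ) [Fact p.Prime], m.Ok →
    ∀ (k i u o : ℕ), i ≤ m.G + m.E →
      m.P p k i u (fun j => m.V p k (j / m.wn) u (j % m.wn)) o = m.V p k i u o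

/-- ELEV. The evaluation of the polynomials. Put `k = l / (G + 2)`. All operations only set mode,
node and sign of the level `l` and change `R` and `qa k`, which do not matter for `Agree (l + 1)`
except `R`, since `l = k (G + 2)`. The ideal procedure of the level `l`, called with mode `1`, node
`G + j`, `j ≤ E`, sign `g ∈ {0, 1}` and query `x = qa k`, adds `± T k x o` to the registers
`G * wn + j * wc + o`, `o < wc` (for `l = 0`, `k = 0` by definition; for `l > 0`:
`(l - 1) / (G + 2) = k - 1`, `(l - 1) % (G + 2) = G + 1 > G = min (G + j) G`, `lo (G + j) = G * wn + j * wc`,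
`ln (G + j) = wc`, `V (k - 1) (G + j) x = T k x` by definition); called with mode `0` it does nothing.
If the level `l + 1` is not active (`md ≠ 2` or `nd > G + E`) nothing happens. Let it be active.
(1) `i = nd < G`. Fix an itinerary `π < 2 ^ (lam * E)` and `c = 1, …, p - 1`; the `2 E + 3` operations,
each followed by the ideal procedure of the level `l`: multiply the registers `G * wn + u`,
`u < E * wc`, by `c`; for `j < E` add `T k (π_j)`, `π_j = dig (2 ^ lam) π j`, to the group `j`, so that
these registers are now `c * Y u + TE k π u`, where `Y u = R (G * wn + u)`; add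
`sgn * fhat (i wn + E wc) (F i π) o (vars i R (c * Y + TE k π))` to the registers `lo i + o = i * wn + o`,
`o < wn` (which are not among the registers before `i * wn` nor in the groups); subtract the
`T k (π_j)` again and multiply by `c⁻¹`. The sum over `c` is by `fhat_sum` (`τ j = if j < i * wn then 0
else Y (j - i * wn)`, `x = vars i R (TE k π)`, the number of variables is `< p - 1`)
`-sgn * fhat … (vars i R (TE k π))`, and the sum over `π` is `-sgn * P k i x R`.
(2) `i = G + j`, `s = src i = (j + 1) % (E + 1) ≠ j`: the operations `e < 3 (p - 1)` come in triples,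
`c = e / 3 + 1`: multiply the group `s` by `c` and (ideal procedure) add `T k x`, `x = qa (k + 1)`; add
`sgn * fhat (G wn + wc) (H x) o (vars G R (c * Y + T k x))` to the registers of the group `j`, and
subtract `T k x` from the group `s`; multiply it by `c⁻¹`. The other operations do nothing
(`3 (p - 1) ≤ cnt`). -/
def ELEV_stmt : Prop := ∀ (m : Mach) (p : ℕ) [Fact p.Prime], m.Ok →
    m.G * m.wn + (m.E + 1) * m.wc < p - 1 → ∀ (l : ℕ),
    l % (m.G + 2) = 0 → ∀ s : Mach.St p,
      m.Agree (l + 1) (iter (fun j s => m.ideal l (m.op l j s)) (m.cnt p l) s) (m.ideal (l + 1) s)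

/-- NLEV (may assume LINE and TRUTH). The evaluation of a node. Put `k = l / (G + 2)` and
`h = l % (G + 2) > 0`; so `l > 0`, `(l - 1) / (G + 2) = k` and `(l - 1) % (G + 2) = h - 1`. If the mode is `2`
(and `nd ≤ G + E`) the first operation passes it on, the ideal procedure of the level `l` does the
same as that of the level `l + 1`, and the other operations do nothing. If the mode is `1`,
`nd ≤ G + E` and `i = min nd G < h`: the round `w` consists of: multiply the registers before
`i * wn` by `w + 1`; for `c < i` add `V k c u` to the registers `c * wn + o`, `o < wn` (ideal procedure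
of the level `l` for the node `c < h - 1`, `c < G`, sign `0`); subtract `sgn * P k nd u R` from the
registers `lo nd + o`, `o < ln nd` (which are not before `i * wn`); for `c < i` subtract `V k c u`
again; multiply the registers before `i * wn` by `(w + 1)⁻¹`. (`V k c u` does not depend on `u` for
`c < G`; the query is `s.qa (k + 1)` in both levels and is never changed.) `P k nd u X` depends only
on `X j`, `j < i * wn`. So a round subtracts `sgn * P k nd u ((w + 1) R + V)` with
`V j = V k (j / wn) u (j % wn)` and changes nothing else (`w + 1 ≠ 0` in `ZMod p` for `w < p - 1`), and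
all rounds together subtract `sgn * ∑_w P k nd u ((w + 1) R + V) = - sgn * P k nd u V =
- sgn * V k nd u`. In all other cases nothing happens. -/
def NLEV_stmt : Prop := ∀ (m : Mach) (p : ℕ) [Fact p.Prime], m.Ok →
    m.G * m.wn + (m.E + 1) * m.wc < p - 1 → ∀ (l : ℕ), l % (m.G + 2) ≠ 0 → ∀ s : Mach.St p,
      m.Agree (l + 1) (iter (fun j s => m.ideal l (m.op l j s)) (m.cnt p l) s) (m.ideal (l + 1) s)

/-- AGREE. The operations of the level `l + 1` and the ideal procedure of the level `l` read only
those data which are the same in the two states, or overwrite them: mode, node and sign of the level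
`l + 1`, `R`, `qa (l / (G + 2) + 1)`, and, only if `l = k (G + 2)`, `qa k`. -/
def AGREE_stmt : Prop := ∀ (m : Mach) (p : ℕ) [Fact p.Prime] (l : ℕ) (s t : Mach.St p),
    m.Agree l s t → (∀ j, m.Agree l (m.op l j s) (m.op l j t)) ∧
      m.Agree l (m.ideal l s) (m.ideal l t) ∧ m.Agree (l + 1) s t

/-- PROC (may assume ELEV, NLEV, AGREE). Induction on `l`: by induction on `n`,
`Agree l (iter (fun j s => proc l (op l j s)) n s) (iter (fun j s => ideal l (op l j s)) n s)`.
For `l = 0` `op0` and `ideal 0` are the same since `tn 0 x = q0 + 2 ^ σ * M0 x` (`h0`, `hM`). -/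
def PROC_stmt : Prop := ∀ (m : Mach) (p : ℕ) [Fact p.Prime], m.Ok →
    m.G * m.wn + (m.E + 1) * m.wc < p - 1 → ∀ (l : ℕ) (s : Mach.St p),
      m.Agree l (m.proc l s) (m.ideal l s)

/-- FINAL (may assume PROC). `K = 0`: `ideal 0`. `K > 0`: the level `K (G + 2) = l + 1` has
`l / (G + 2) = K - 1` and `l % (G + 2) = G + 1`. -/
def FINAL_stmt : Prop := ∀ (m : Mach) (p : ℕ) [Fact p.Prime], m.Ok →
    m.G * m.wn + (m.E + 1) * m.wc < p - 1 → ∀ (K o : ℕ), o < m.wc →
      (m.proc (K * (m.G + 2)) (m.st0 p (K * (m.G + 2)))).R (m.G * m.wn + o) = m.T p K 0 o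

/-! ### The digits -/

/-- REL (may assume `Tok.FCAST_stmt`). The operations on digits do the same as the operations on
states. By cases for the kind `x % 5` of the entry; for the registers use: a number smaller than `p`
whose cast is `z` is `z.val`. All entries which are read have an index smaller than `5 J`. -/
def REL_stmt : Prop := ∀ (m : Mach) (p : ℕ) [Fact p.Prime], m.Ok → ∀ (J K : ℕ), m.Fit p J K →
    (∀ l < K * (m.G + 2), ∀ (j : ℕ) (a : ℕ → ℕ) (s : Mach.St p), m.Rel J K a s →
      m.Rel J K (trc (5 * J) (m.opA p l j a)) (m.op l j s)) ∧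
    ∀ (a : ℕ → ℕ) (s : Mach.St p), m.Rel J K a s →
      m.Rel J K (trc (5 * J) (m.baseA p a)) (m.op0 s)

/-- LSOP. The operations on digits are computed in linear space. First `fhG` (see
`Helper32/Tok/LSFN.lean` and `LS.fhN` in `LinSpace/TreeLS.lean`): the number of variables is
`min i G * wn + E * wc` or `G * wn + wc`, so `2 ^ (…) ≤ C` by `hC`. In `yR` the index `π = j / nE p` and the
node `i` are arbitrary numbers; `F` and `H` are in the class for all arguments. -/
def LSOP_stmt : Prop := ∀ {α : Type} [Ctx α] {m : α → Mach} {C p : α → ℕ},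
    LSM m C → LS p → (∀ z, 0 < p z) →
    LS (fun z : α × ℕ × ℕ × ℕ × ℕ => (m z.1).opA (p z.1) z.2.1 z.2.2.1
      (dig (p z.1) z.2.2.2.1) z.2.2.2.2) ∧
    LS (fun z : α × ℕ × ℕ => (m z.1).baseA (p z.1) (dig (p z.1) z.2.1) z.2.2)

/-! ### The parameters -/

/-- The number of registers which fit into linear space. -/
def mR (n : ℕ) : ℕ := n / ll n + 8

/-- The number of digits of each kind. -/
def JE (n : ℕ) : ℕ := mR n + 1

/-- The bound for all numbers. -/
def CE (x : ℕ) : ℕ := (x + 2) ^ 20000

/-- The parameters of the machine `m` and the number `K` of blocks are admissible for inputs of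
length `n`. -/
structure Par (n K : ℕ) (m : Mach) : Prop where
  h1 : m.G * m.wn + (m.E + 1) * m.wc ≤ mR n
  h2 : K * (m.G + 2) ≤ mR n
  h3 : (K + 1) * (m.lam * m.E) ≤ n + 8
  h4 : (K + 1) * m.lam ≤ mR n + 1

/-- PARA. `pR n > (n + 2) ^ 4 ≥ 16` (`pR_spec` in `Helper69/Ram/PAR.lean`) and `mR n ≤ n + 8`; `wn ≥ 1` and
`wc ≥ 1`, so `G + E + 1 ≤ G wn + (E + 1) wc ≤ mR n`. -/
def PARA_stmt : Prop := ∀ (n K : ℕ) (m : Mach), m.Ok → Par n K m → m.Fit (pR n) (JE n) K

/-- PARB. Put `n = log x`, `λ = ll n ≥ 1`. `pR n ≤ 2^(4 λ + 5) ≤ 2 ^ (9 λ)`, so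
`(pR n)^(5 JE n) ≤ 2^(45 λ (n / λ + 9)) ≤ 2 ^ (450 (n + 1))` (`λ ≤ n + 1`). The product over the levels
has `K` factors `2 ^ (lam E) * ((p - 1) (2 E + 3))` and `K (G + 1)` factors `(p - 1) (2 G + 3)`:
`K lam E ≤ n + 8`, `2 E + 3, 2 G + 3 ≤ 2 n + 19 ≤ 2 ^ (λ + 5)`, so the exponent is at most
`n + 8 + mR n * (10 λ + 5)`. Finally `two_pow_log_le : 2 ^ (k * (log x + 1)) ≤ (x + 2) ^ (2 k)`. -/
def PARB_stmt : Prop := ∀ (x K : ℕ) (m : Mach), m.Ok → Par (Nat.log 2 x) K m →
    pR (Nat.log 2 x) ^ (5 * JE (Nat.log 2 x)) ≤ CE x ∧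
      ∏ l ∈ range (K * (m.G + 2)), m.cnt (pR (Nat.log 2 x)) l ≤ CE x ∧
      2 ^ (m.G * m.wn + (m.E + 1) * m.wc) ≤ CE x ∧ 2 ^ (m.lam * m.E) ≤ CE x

end Pool.Agent.Helper78.Ep
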