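import Pool.Agent.Helper78.Ep.Alg
import Pool.Agent.Helper78.Tok.Num

/-!
# Itinerary machines: the simulation on digits

An array `a : ℕ → ℕ` of digits codes a state of the simulation: the entry `5 x + c` is, for
`c = 0, …, 4`, the register `x`, the mode, the node and the sign of the level `x`, and the bit
`x % lam` of the query of the block `x / lam`.
-/

namespace Pool.Agent.Helper78.Ep

open Pool.Agent.Helper65.LinSpace Pool.Agent.Helper28.Ram Finset
open Pool.Agent.Helper28.Ram.Mach (sgz)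
open Pool.Agent.Helper78.Tok (fhG rgn)

namespace Mach

variable (m : Mach)

/-- The variables of the node `i`: the registers before the interval `i`, then the cells `D`. -/
def varN (i : ℕ) (X D : ℕ → ℕ) (j : ℕ) : ℕ := ifz (lt01 j (i * m.wn)) (D (j - i * m.wn)) (X j)

/-- The number of operations for an itinerary. -/
def nE (p : ℕ) : ℕ := (p - 1) * (2 * m.E + 3)

/-- The first register of the output of the node `i`. -/
def loN (i : ℕ) : ℕ := ifz (lt01 i m.G) (m.G * m.wn + (i - m.G) * m.wc) (i * m.wn)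

/-- The number of registers of the output of the node `i`. -/
def lnN (i : ℕ) : ℕ := ifz (lt01 i m.G) m.wc m.wn

/-! ### The operations -/

/-- The query of the block `t`. -/
def qN (a : ℕ → ℕ) (t : ℕ) : ℕ := tab 2 m.lam fun o => a (5 * (t * m.lam + o) + 4)

/-- `1` if the level `l + 1` evaluates the polynomials of a node before `G`. -/
def isY (a : ℕ → ℕ) (l : ℕ) : ℕ :=
  eq01 (l % (m.G + 2)) 0 * (eq01 (a (5 * (l + 1) + 1)) 2 * lt01 (a (5 * (l + 1) + 2)) m.G)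

/-- `1` if the level `l + 1` evaluates the polynomials of a node `G + j` in the operation `j'`. -/
def isZ (p : ℕ) (a : ℕ → ℕ) (l j : ℕ) : ℕ :=
  eq01 (l % (m.G + 2)) 0 * (eq01 (a (5 * (l + 1) + 1)) 2 *
    (le01 m.G (a (5 * (l + 1) + 2)) * le01 (a (5 * (l + 1) + 2)) (m.G + m.E)) *
      lt01 j (3 * (p - 1)))

/-- `1` if the level `l + 1` evaluates a node. -/
def isN (a : ℕ → ℕ) (l : ℕ) : ℕ :=
  lt01 0 (l % (m.G + 2)) *
    (eq01 (a (5 * (l + 1) + 1)) 1 * (lt01 (min (a (5 * (l + 1) + 2)) m.G) (l % (m.G + 2)) *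
      le01 (a (5 * (l + 1) + 2)) (m.G + m.E)))

/-- `1` if the level `l + 1` passes on the evaluation of polynomials. -/
def isP (a : ℕ → ℕ) (l j : ℕ) : ℕ :=
  lt01 0 (l % (m.G + 2)) *
    (eq01 (a (5 * (l + 1) + 1)) 2 * le01 (a (5 * (l + 1) + 2)) (m.G + m.E) * eq01 j 0)

/-- The new register `x` in the operation `e` for the itinerary `π` and the factor `c` of the node
`i`. -/
def yR (p i π c e sg : ℕ) (a : ℕ → ℕ) (x : ℕ) : ℕ :=
  ifz e
    (ifz (rgn (m.G * m.wn) (m.E * m.wc) x) (a (5 * x)) (c * a (5 * x) % p))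
    (ifz (eq01 e (m.E + 1))
      (ifz (eq01 e (2 * m.E + 2)) (a (5 * x))
        (ifz (rgn (m.G * m.wn) (m.E * m.wc) x) (a (5 * x)) (invN p c * a (5 * x) % p)))
      (ifz (rgn (m.loN i) (m.lnN i) x) (a (5 * x))
        ((a (5 * x) + ifz sg 1 (p - 1) * fhG p (min i m.G * m.wn + m.E * m.wc) (m.F i π)
          (x - m.loN i) (m.varN i (fun j => a (5 * j)) fun u => a (5 * (m.G * m.wn + u)))) % p)))

/-- The new register `x` in the operation `e` for the node `i = G + j` and the query `u`. -/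
def zR (p i u e sg : ℕ) (a : ℕ → ℕ) (x : ℕ) : ℕ :=
  ifz (e % 3)
    (ifz (rgn (m.G * m.wn + m.src i * m.wc) m.wc x) (a (5 * x)) ((e / 3 + 1) * a (5 * x) % p))
    (ifz (e % 3 - 1)
      (ifz (rgn (m.loN i) (m.lnN i) x) (a (5 * x))
        ((a (5 * x) + ifz sg 1 (p - 1) * fhG p (m.G * m.wn + m.wc) (m.H u) (x - m.loN i)
          (m.varN m.G (fun j => a (5 * j)) fun o => a (5 * (m.G * m.wn + m.src i * m.wc + o)))) %
            p))
      (ifz (rgn (m.G * m.wn + m.src i * m.wc) m.wc x) (a (5 * x))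
        (invN p (e / 3 + 1) * a (5 * x) % p)))

/-- The new register `x`. -/
def nR (p l j : ℕ) (a : ℕ → ℕ) (x : ℕ) : ℕ :=
  ifz (m.isY a l)
    (ifz (m.isZ p a l j)
      (ifz (m.isN a l * lt01 x (min (a (5 * (l + 1) + 2)) m.G * m.wn))
        (a (5 * x))
        (ifz (j % (2 * m.G + 3))
          ((j / (2 * m.G + 3) + 1) * a (5 * x) % p)
          (ifz (eq01 (j % (2 * m.G + 3)) (2 * m.G + 2)) (a (5 * x))
            (invN p (j / (2 * m.G + 3) + 1) * a (5 * x) % p))))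
      (m.zR p (a (5 * (l + 1) + 2)) (m.qN a (l / (m.G + 2) + 1)) j (a (5 * (l + 1) + 3)) a x))
    (m.yR p (a (5 * (l + 1) + 2)) (j / m.nE p) (j % m.nE p / (2 * m.E + 3) + 1)
      (j % (2 * m.E + 3)) (a (5 * (l + 1) + 3)) a x)

/-- The new mode of the level `l`. -/
def cMd (p l j : ℕ) (a : ℕ → ℕ) : ℕ :=
  ifz (m.isY a l)
    (ifz (m.isZ p a l j)
      (ifz (m.isN a l)
        (ifz (m.isP a l j) 0 2)
        (ifz (j % (2 * m.G + 3)) 0
          (ifz (le01 (j % (2 * m.G + 3)) m.G)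
            (ifz (eq01 (j % (2 * m.G + 3)) (m.G + 1))
              (ifz (le01 (j % (2 * m.G + 3)) (2 * m.G + 1)) 0
                (lt01 (j % (2 * m.G + 3) - (m.G + 2)) (a (5 * (l + 1) + 2))))
              2)
            (lt01 (j % (2 * m.G + 3) - 1) (a (5 * (l + 1) + 2))))))
      (lt01 (j % 3) 2))
    (ifz (j % (2 * m.E + 3)) 0
      (ifz (le01 (j % (2 * m.E + 3)) m.E)
        (ifz (eq01 (j % (2 * m.E + 3)) (m.E + 1)) (le01 (j % (2 * m.E + 3)) (2 * m.E + 1)) 0)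
        1))

/-- The new node of the level `l`. -/
def cNd (p l j : ℕ) (a : ℕ → ℕ) : ℕ :=
  ifz (m.isY a l)
    (ifz (m.isZ p a l j)
      (ifz (m.isN a l)
        (ifz (m.isP a l j) 0 (a (5 * (l + 1) + 2)))
        (ifz (j % (2 * m.G + 3)) 0
          (ifz (le01 (j % (2 * m.G + 3)) m.G)
            (ifz (eq01 (j % (2 * m.G + 3)) (m.G + 1))
              (ifz (le01 (j % (2 * m.G + 3)) (2 * m.G + 1)) 0
                (lt01 (j % (2 * m.G + 3) - (m.G + 2)) (a (5 * (l + 1) + 2)) *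
                  (j % (2 * m.G + 3) - (m.G + 2))))
              (a (5 * (l + 1) + 2)))
            (lt01 (j % (2 * m.G + 3) - 1) (a (5 * (l + 1) + 2)) * (j % (2 * m.G + 3) - 1)))))
      (lt01 (j % 3) 2 * (m.G + m.src (a (5 * (l + 1) + 2)))))
    (ifz (j % (2 * m.E + 3)) 0
      (ifz (le01 (j % (2 * m.E + 3)) m.E)
        (ifz (eq01 (j % (2 * m.E + 3)) (m.E + 1))
          (le01 (j % (2 * m.E + 3)) (2 * m.E + 1) * (m.G + (j % (2 * m.E + 3) - (m.E + 2)))) 0)
        (m.G + (j % (2 * m.E + 3) - 1))))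

/-- The new sign of the level `l`. -/
def cSg (p l j : ℕ) (a : ℕ → ℕ) : ℕ :=
  ifz (m.isY a l)
    (ifz (m.isZ p a l j)
      (ifz (m.isN a l)
        (ifz (m.isP a l j) 0 (a (5 * (l + 1) + 3)))
        (ifz (j % (2 * m.G + 3)) 0
          (ifz (le01 (j % (2 * m.G + 3)) m.G)
            (ifz (eq01 (j % (2 * m.G + 3)) (m.G + 1))
              (ifz (le01 (j % (2 * m.G + 3)) (2 * m.G + 1)) 0
                (lt01 (j % (2 * m.G + 3) - (m.G + 2)) (a (5 * (l + 1) + 2))))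
              (a (5 * (l + 1) + 3)))
            0)))
      (eq01 (j % 3) 1))
    (ifz (j % (2 * m.E + 3)) 0
      (ifz (le01 (j % (2 * m.E + 3)) m.E)
        (ifz (eq01 (j % (2 * m.E + 3)) (m.E + 1)) (le01 (j % (2 * m.E + 3)) (2 * m.E + 1)) 0)
        0))

/-- The new bit `x` of the queries. -/
def nQ (p l j : ℕ) (a : ℕ → ℕ) (x : ℕ) : ℕ :=
  ifz (eq01 (x / m.lam) (l / (m.G + 2))) (a (5 * x + 4))
    (ifz (m.isY a l)
      (ifz (m.isZ p a l j * eq01 (j % 3) 0) (a (5 * x + 4)) (a (5 * (x + m.lam) + 4)))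
      (ifz (j % (2 * m.E + 3)) (a (5 * x + 4))
        (ifz (le01 (j % (2 * m.E + 3)) m.E)
          (ifz (le01 (m.E + 2) (j % (2 * m.E + 3)) * le01 (j % (2 * m.E + 3)) (2 * m.E + 1))
            (a (5 * x + 4))
            (dig 2 (dig (2 ^ m.lam) (j / m.nE p) (j % (2 * m.E + 3) - (m.E + 2))) (x % m.lam)))
          (dig 2 (dig (2 ^ m.lam) (j / m.nE p) (j % (2 * m.E + 3) - 1)) (x % m.lam)))))

/-- The operation `j` of the level `l + 1`. -/
def opA (p l j : ℕ) (a : ℕ → ℕ) (x : ℕ) : ℕ :=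
  ifz (x % 5) (m.nR p l j a (x / 5))
    (ifz (x % 5 - 1) (ifz (eq01 (x / 5) l) (a x) (m.cMd p l j a))
      (ifz (x % 5 - 2) (ifz (eq01 (x / 5) l) (a x) (m.cNd p l j a))
        (ifz (x % 5 - 3) (ifz (eq01 (x / 5) l) (a x) (m.cSg p l j a))
          (m.nQ p l j a (x / 5))))) % p

/-- The operation of the level `0`. -/
def baseA (p : ℕ) (a : ℕ → ℕ) (x : ℕ) : ℕ :=
  (a x + eq01 (a 1) 1 * (le01 m.G (a 2) * le01 (a 2) (m.G + m.E)) *
    (eq01 (x % 5) 0 * rgn (m.loN (a 2)) m.wc (x / 5)) *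
    (ifz (a 3) 1 (p - 1) * dig 2 (m.q0 + 2 ^ m.σ * m.M0 (m.qN a 0)) (x / 5 - m.loN (a 2)))) % p

/-- The initial array. -/
def initA (K x : ℕ) : ℕ :=
  ifz (eq01 x (5 * (K * (m.G + 2)) + 1)) (ifz (eq01 x (5 * (K * (m.G + 2)) + 2)) 0 m.G) 1

/-- The event after `K * (G * b)` steps. -/
def sim (p J K : ℕ) : ℕ :=
  tab 2 m.σ fun o => prc (5 * J) (m.cnt p) (m.baseA p) (m.opA p) (K * (m.G + 2))
    (trc (5 * J) (m.initA K)) (5 * (m.G * m.wn + o)) % 2

variable {p : ℕ}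

/-- The code of a state of the simulation. -/
def enc (s : St p) (x : ℕ) : ℕ :=
  if x % 5 = 0 then (s.R (x / 5)).val
  else if x % 5 = 1 then s.md (x / 5)
  else if x % 5 = 2 then s.nd (x / 5)
  else if x % 5 = 3 then s.sg (x / 5)
  else dig 2 (s.qa (x / 5 / m.lam)) (x / 5 % m.lam)

/-- The array `a` codes the state `s`. -/
def Rel (J K : ℕ) (a : ℕ → ℕ) (s : St p) : Prop :=
  (∀ x < 5 * J, a x = m.enc s x ∧ a x < p) ∧ ∀ t ≤ K, s.qa t < 2 ^ m.lam

variable (p) in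
/-- The prime and the arrays are large enough. -/
structure Fit (J K : ℕ) : Prop where
  h1 : m.G * m.wn + (m.E + 1) * m.wc ≤ J
  h2 : K * (m.G + 2) < J
  h3 : (K + 1) * m.lam ≤ J
  h4 : m.G + m.E < p
  h5 : 2 < p
  h6 : m.G * m.wn + (m.E + 1) * m.wc < p - 1

end Mach

/-- A family of machines whose parameters and functions are computed in linear space. -/
structure LSM {α : Type} [Ctx α] (m : α → Mach) (C : α → ℕ) : Prop where
  σ : LS (fun z => (m z).σ)
  a : LS (fun z => (m z).a)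
  b : LS (fun z => (m z).b)
  G : LS (fun z => (m z).G)
  E : LS (fun z => (m z).E)
  lam : LS (fun z => (m z).lam)
  F : LS (fun z : α × ℕ × ℕ × ℕ => (m z.1).F z.2.1 z.2.2.1 z.2.2.2)
  H : LS (fun z : α × ℕ × ℕ => (m z.1).H z.2.1 z.2.2)
  q0 : LS (fun z => (m z).q0)
  M0 : LS (fun z : α × ℕ => (m z.1).M0 z.2)
  bd : LS C
  ok : ∀ z, (m z).Ok
  hC : ∀ z, 2 ^ ((m z).G * (m z).wn + ((m z).E + 1) * (m z).wc) ≤ C z
  hC' : ∀ z, 2 ^ ((m z).lam * (m z).E) ≤ C z

end Pool.Agent.Helper78.Ep
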