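import Pool.Agent.Helper78.Ep.Goals

/-!
# Itinerary machines are simulated in linear space
-/

namespace Pool.Agent.Helper78.Ep

open Pool.Agent.Helper65.LinSpace Pool.Agent.Helper78.Mpc Pool.Agent.Helper28.Ram Finset
open Pool.Agent.Helper28.Ram.Mach (sgz)

namespace Mach

variable {m : Mach} {p : ℕ}

theorem rel_init [hp : Fact p.Prime] {J K : ℕ} (hf : m.Fit p J K) :
    m.Rel J K (trc (5 * J) (m.initA K)) (m.st0 p (K * (m.G + 2))) := by
  have hp0 := hp.out.pos
  refine ⟨fun x hx => ?_, fun t _ => ?_⟩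
  · have h1 : trc (5 * J) (m.initA K) x = m.initA K x := if_pos hx
    rw [h1]
    have h4 := hf.h4
    have h5 := hf.h5
    set l := K * (m.G + 2) with hl
    have e : m.initA K x = m.enc (m.st0 p l) x := by
      unfold initA enc st0 St.call
      rw [← hl]
      simp only [ifz_eq01]
      by_cases hx1 : x = 5 * l + 1
      · have a1 : x % 5 = 1 := by omega
        have a2 : x / 5 = l := by omega
        rw [if_pos hx1, a1, a2]
        simp
      · rw [if_neg hx1]
        by_cases hx2 : x = 5 * l + 2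
        · have a1 : x % 5 = 2 := by omega
          have a2 : x / 5 = l := by omega
          rw [if_pos hx2, a1, a2]
          simp
        · rw [if_neg hx2]
          by_cases c0 : x % 5 = 0
          · simp [c0]
          by_cases c1 : x % 5 = 1
          · have a2 : x / 5 ≠ l := by omega
            simp [c1, Function.update_of_ne a2]
          by_cases c2 : x % 5 = 2
          · have a2 : x / 5 ≠ l := by omega
            simp [c2, Function.update_of_ne a2]
          by_cases c3 : x % 5 = 3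
          · by_cases a2 : x / 5 = l
            · simp [c3, a2]
            · simp [c3, Function.update_of_ne a2]
          rw [if_neg c0, if_neg c1, if_neg c2, if_neg c3]
          simp [dig]
    refine ⟨e, ?_⟩
    unfold initA
    simp only [ifz_eq01]
    split_ifs <;> omega
  · show (0 : ℕ) < 2 ^ m.lam
    positivity

theorem rel_proc (hREL : REL_stmt) [Fact p.Prime] (hm : m.Ok) {J K : ℕ} (hf : m.Fit p J K) :
    ∀ l ≤ K * (m.G + 2), ∀ (a : ℕ → ℕ) (s : St p), m.Rel J K a s →
      m.Rel J K (prc (5 * J) (m.cnt p) (m.baseA p) (m.opA p) l a) (m.proc l s) := by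
  obtain ⟨h1, h2⟩ := hREL m p hm J K hf
  intro l
  induction l with
  | zero =>
    intro _ a s h
    exact h2 a s h
  | succ l ih =>
    intro hl a s h
    show m.Rel J K (iter (fun j s => prc (5 * J) (m.cnt p) (m.baseA p) (m.opA p) l
      (trc (5 * J) (m.opA p l j s))) (m.cnt p l) a) (iter (fun j s => m.proc l (m.op l j s))
        (m.cnt p l) s)
    generalize m.cnt p l = n
    induction n with
    | zero => exact h
    | succ n ihn => exact ih (by omega) _ _ (h1 l (by omega) n _ _ ihn)

/-- The bits of the event in `tn`. -/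
theorem dig_tn (hm : m.Ok) (k x : ℕ) {o : ℕ} (ho : o < m.σ) :
    dig 2 (m.tn k x) o = dig 2 (m.ev (k * (m.G * m.b))) o := by
  have hlt := hm.hev (k * (m.G * m.b))
  unfold tn dig
  obtain ⟨d, hd⟩ : ∃ d, m.σ = o + (d + 1) := ⟨m.σ - o - 1, by omega⟩
  rw [hd, pow_add, mul_assoc, Nat.add_mul_div_left _ _ (by positivity), pow_succ, mul_comm (2 ^ d) 2,
    mul_assoc 2, Nat.add_mul_mod_self_left]

theorem sim_eq (hREL : REL_stmt) (hFINAL : FINAL_stmt) [hp : Fact p.Prime] (hm : m.Ok) {J K : ℕ}
    (hf : m.Fit p J K) : m.sim p J K = m.ev (K * (m.G * m.b)) := by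
  have hσ := hm.hσ
  have hb := hm.hb
  have hrel := rel_proc hREL hm hf (K * (m.G + 2)) le_rfl _ _ (rel_init hf)
  have hlt := hm.hev (K * (m.G * m.b))
  unfold sim
  rw [← tab_dig _ m.σ hlt]
  refine tab_congr fun o ho => ?_
  have hwc : o < m.wc := by
    unfold wc
    omega
  have hx : m.G * m.wn + o < J := by
    have h1 := hf.h1
    have h2 : m.wc ≤ (m.E + 1) * m.wc := Nat.le_mul_of_pos_left _ (Nat.succ_pos _)
    omega
  obtain ⟨h1, _⟩ := hrel.1 (5 * (m.G * m.wn + o)) (by omega)
  rw [h1]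
  unfold enc
  have e1 : 5 * (m.G * m.wn + o) % 5 = 0 := by omega
  have e2 : 5 * (m.G * m.wn + o) / 5 = m.G * m.wn + o := by omega
  rw [if_pos e1, e2, hFINAL m p hm hf.h6 K o hwc]
  unfold T bitZ
  rw [dig_tn hm K 0 ho]
  have h2 := dig_lt (q := 2) (by norm_num) (m.ev (K * (m.G * m.b))) o
  rw [ZMod.val_natCast_of_lt (lt_of_lt_of_le h2 hp.out.two_le), Nat.mod_eq_of_lt h2]

end Mach

/-- The parts of the simulation. -/
structure Parts : Prop where
  FLAT : FLAT_stmt
  REL : REL_stmt
  FINAL : FINAL_stmt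
  LSOP : LSOP_stmt
  PARA : PARA_stmt
  PARB : PARB_stmt

variable {α : Type} [Ctx α]

theorem ls_pR {n : α → ℕ} (hn : LS n) : LS (fun a => pR (n a)) := by
  unfold pR
  fun_prop

theorem ls_JE {n : α → ℕ} (hn : LS n) : LS (fun a => JE (n a)) := by
  unfold JE mR
  fun_prop

theorem pR_prime (n : ℕ) : (pR n).Prime := (nextPrime_spec (by positivity)).1

/-- **The simulation theorem for itinerary machines.** The event of a machine on numbers after
`K * (G * b)` steps is computed in linear space. -/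
theorem ls_simE (P : Parts) {m : α → Mach} {x K : α → ℕ} (hx : LS x) (hK : LS K)
    (hM : LSM m (fun z => CE (x z))) (hpar : ∀ z, Par (Nat.log 2 (x z)) (K z) (m z)) :
    LS (fun z => (m z).sim (pR (Nat.log 2 (x z))) (JE (Nat.log 2 (x z))) (K z)) := by
  have hp : LS (fun z => pR (Nat.log 2 (x z))) := ls_pR (by fun_prop)
  have hJ : LS (fun z => JE (Nat.log 2 (x z))) := ls_JE (by fun_prop)
  have hC := hM.bd
  have hσ := hM.σ
  have ha := hM.a
  have hb := hM.b
  have hG := hM.G
  have hE := hM.E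
  have hl := hM.lam
  have hpp : ∀ z, 0 < pR (Nat.log 2 (x z)) := fun z => (pR_prime _).pos
  have hp1 : ∀ z, 0 < pR (Nat.log 2 (x z)) - 1 := fun z => by
    have := (pR_prime (Nat.log 2 (x z))).two_le
    omega
  obtain ⟨hop, hbase⟩ := P.LSOP hM hp hpp
  have hPar2 := fun z => P.PARB (x z) (K z) (m z) (hM.ok z) (hpar z)
  have hcnt0 : ∀ z l, 0 < (m z).cnt (pR (Nat.log 2 (x z))) l := by
    intro z l
    have h1 := hp1 z
    unfold Mach.cnt ifz
    split_ifs <;> positivity
  have hpw : LS (fun z => 2 ^ ((m z).lam * (m z).E)) :=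
    LS.pow_of_le (f := fun _ => 2) (C := fun z => CE (x z)) (by fun_prop) (by fun_prop) hC
      fun z => (hPar2 z).2.2.2
  have hcnt : LS (fun z : α × ℕ => (m z.1).cnt (pR (Nat.log 2 (x z.1))) z.2) := by
    unfold Mach.cnt
    have a1 : LS (fun z : α × ℕ => (m z.1).G) := LS.comp (f := fun z : α × ℕ => z.1) hG
      (by fun_prop)
    have a2 : LS (fun z : α × ℕ => (m z.1).E) := LS.comp (f := fun z : α × ℕ => z.1) hE
      (by fun_prop)
    have a3 : LS (fun z : α × ℕ => 2 ^ ((m z.1).lam * (m z.1).E)) :=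
      LS.comp (f := fun z : α × ℕ => z.1) hpw (by fun_prop)
    have a4 : LS (fun z : α × ℕ => pR (Nat.log 2 (x z.1))) :=
      LS.comp (f := fun z : α × ℕ => z.1) hp (by fun_prop)
    fun_prop
  have hini : LS (fun z : α × ℕ => (m z.1).initA (K z.1) z.2) := by
    unfold Mach.initA
    have a1 : LS (fun z : α × ℕ => (m z.1).G) := LS.comp (f := fun z : α × ℕ => z.1) hG
      (by fun_prop)
    have a2 : LS (fun z : α × ℕ => K z.1) :=
      LS.comp (f := fun z : α × ℕ => z.1) hK (by fun_prop)
    fun_prop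
  have hflat := P.FLAT (β := fun z => pR (Nat.log 2 (x z)))
    (Λ := fun z => 5 * JE (Nat.log 2 (x z)))
    (lv := fun z => K z * ((m z).G + 2)) (C := fun z => CE (x z))
    (cnt := fun z => (m z).cnt (pR (Nat.log 2 (x z))))
    (base := fun z => (m z).baseA (pR (Nat.log 2 (x z))))
    (op := fun z => (m z).opA (pR (Nat.log 2 (x z))))
    (s0 := fun z => (m z).initA (K z))
    hp (by fun_prop) (by fun_prop) hC hcnt hbase hop hini
    (fun z s x => Nat.mod_lt _ (hpp z)) (fun z l j s x => Nat.mod_lt _ (hpp z)) ?_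
    (fun z => (hPar2 z).1) (fun z => (hPar2 z).2.1) hcnt0
  · have hCσ : ∀ z, 2 ^ (m z).σ ≤ CE (x z) := by
      intro z
      refine le_trans (Nat.pow_le_pow_right (by norm_num) ?_) (hM.hC z)
      have h2 : (m z).wc ≤ ((m z).E + 1) * (m z).wc := Nat.le_mul_of_pos_left _ (Nat.succ_pos _)
      have h3 : (m z).σ ≤ (m z).wc := by
        unfold Mach.wc
        omega
      omega
    have hfin : LS (fun z => tab 2 (m z).σ fun o => prc (5 * JE (Nat.log 2 (x z)))
        ((m z).cnt (pR (Nat.log 2 (x z)))) ((m z).baseA (pR (Nat.log 2 (x z))))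
        ((m z).opA (pR (Nat.log 2 (x z)))) (K z * ((m z).G + 2))
        (trc (5 * JE (Nat.log 2 (x z))) ((m z).initA (K z)))
        (5 * ((m z).G * (m z).wn + o)) % 2) := by
      refine LS.tab (q := fun _ => 2) (m := fun z => (m z).σ) (C := fun z => CE (x z))
        (d := fun z o => prc (5 * JE (Nat.log 2 (x z)))
        ((m z).cnt (pR (Nat.log 2 (x z)))) ((m z).baseA (pR (Nat.log 2 (x z))))
        ((m z).opA (pR (Nat.log 2 (x z)))) (K z * ((m z).G + 2))
        (trc (5 * JE (Nat.log 2 (x z))) ((m z).initA (K z)))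
        (5 * ((m z).G * (m z).wn + o)) % 2) ?_ (LS.const 2) hσ hC
        (fun z i _ => Nat.mod_lt _ (by norm_num)) hCσ
      refine LS.mod ?_ (LS.const 2)
      have a0 : LS (fun z : α × ℕ => (m z.1).σ) := LS.comp (f := fun z : α × ℕ => z.1) hσ
        (by fun_prop)
      have a1 : LS (fun z : α × ℕ => (m z.1).G) := LS.comp (f := fun z : α × ℕ => z.1) hG
        (by fun_prop)
      have a2 : LS (fun z : α × ℕ => (m z.1).b) := LS.comp (f := fun z : α × ℕ => z.1) hb
        (by fun_prop)
      have a5 : LS (fun z : α × ℕ => (z.1, 5 * ((m z.1).G * (m z.1).wn + z.2))) := by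
        unfold Mach.wn
        fun_prop
      exact LS.comp (f := fun z : α × ℕ => (z.1, 5 * ((m z.1).G * (m z.1).wn + z.2))) hflat a5
    exact hfin
  · intro z i
    have h4 := (P.PARA (Nat.log 2 (x z)) (K z) (m z) (hM.ok z) (hpar z)).h4
    have h5 := (P.PARA (Nat.log 2 (x z)) (K z) (m z) (hM.ok z) (hpar z)).h5
    show (m z).initA _ i < _
    unfold Mach.initA
    simp only [ifz_eq01]
    split_ifs <;> omega

/-- The simulation computes the event of the machine. -/
theorem simE_eq (P : Parts) {m : Mach} (hok : m.Ok) {n K : ℕ} (hpar : Par n K m) :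
    m.sim (pR n) (JE n) K = m.ev (K * (m.G * m.b)) := by
  have h := P.PARA n K m hok hpar
  have : Fact (pR n).Prime := ⟨pR_prime _⟩
  rw [Mach.sim_eq P.REL P.FINAL hok h]

end Pool.Agent.Helper78.Ep
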